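import Mathlib
import Pool.Agent.H22.SymDefs
import Pool.Agent.H22.SymC

set_option autoImplicit false

open Pool.Agent.H22.Sym in
/-- Every metrizable group topology on the group of all permutations of `ℤ` is one of the four
standard ones. -/
theorem Pool.Agent.Results.MP_8d0ff6_al.FourTopologies.result
    (τ : TopologicalSpace (Equiv.Perm ℤ)) [IsTopologicalGroup (Equiv.Perm ℤ)]
    [TopologicalSpace.MetrizableSpace (Equiv.Perm ℤ)] :
    IsStandard τ {1} ∨ IsStandard τ EvenFinitary ∨ IsStandard τ Finitary ∨
      IsStandard τ Set.univ := by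
  obtain ⟨u, hu⟩ := (nhds (1 : Equiv.Perm ℤ)).exists_antitone_basis
  exact classify u hu
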